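import Pool.Agent.helper20.VVO.Spec

/-!
# Project vvo (MP_069684_lc), row vvo:PBC (helper5)

OPEN (docstring of `PBC_stmt`, `Pool/Agent/helper20/VVO/Spec.lean`): lower bound for the binomial probability of `1..j` by the Poisson probability.
-/

set_option autoImplicit false

open Filter Topology

namespace Pool.Agent.VVO

open Pool.Agent.PB Pool.Agent.ISO Pool.Agent.ISA

/-- `1 - x ≥ exp (-(x (1 + 2 x)))` for `0 ≤ x ≤ 1/2` -/
theorem PBC_exp {x : ℝ} (h0 : 0 ≤ x) (h1 : x ≤ 1 / 2) : Real.exp (-(x * (1 + 2 * x))) ≤ 1 - x := by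
  have hpos : 0 < 1 - x := by linarith
  have h2 : (1 - x)⁻¹ ≤ Real.exp (x * (1 + 2 * x)) := by
    have h3 : (1 - x)⁻¹ ≤ 1 + x * (1 + 2 * x) := by
      rw [inv_le_iff_one_le_mul₀ hpos]
      nlinarith [mul_nonneg h0 (mul_nonneg h0 (by linarith : (0 : ℝ) ≤ 1 - 2 * x))]
    have h4 := Real.add_one_le_exp (x * (1 + 2 * x))
    linarith
  rw [Real.exp_neg]
  have h5 := inv_anti₀ (inv_pos.2 hpos) h2
  rw [inv_inv] at h5
  exact h5

theorem PBC_term (j i κ : ℕ) (δ1 x lam hi x1 : ℝ) (hij : i ≤ j) (hjκ : j ≤ κ) (h0 : 0 < x) (hx : x ≤ x1) (hx1 : x1 ≤ 1 / 2)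
    (hδ : 0 < δ1) (hδ1 : δ1 ≤ 1 / 2) (hlam : 0 < lam) (hhi : lam ≤ hi) (hA : 2 * j * δ1 ≤ 1)
    (hB : hi * (δ1 + 4 * x1) ≤ 1) (hjx : j * x1 ≤ δ1 * lam) (hab : |κ * x - lam| ≤ δ1 * lam) :
    (1 - 2 * j * δ1) * (1 - hi * (δ1 + 4 * x1)) * (Real.exp (-lam) * lam ^ i / (i.factorial : ℝ)) ≤
      (κ.choose i : ℝ) * x ^ i * (1 - x) ^ (κ - i) := by
  obtain ⟨ha, hb⟩ := abs_le.1 hab
  have hfac : (0 : ℝ) < (i.factorial : ℝ) := by exact_mod_cast i.factorial_pos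
  -- the binomial coefficient
  have hc1 : ((κ : ℝ) - j) ^ i ≤ (i.factorial : ℝ) * (κ.choose i : ℝ) := by
    have e1 : (κ + 1 - i) ^ i ≤ κ.descFactorial i := Nat.pow_sub_le_descFactorial κ i
    rw [Nat.descFactorial_eq_factorial_mul_choose] at e1
    have e2 : (((κ + 1 - i) ^ i : ℕ) : ℝ) ≤ ((i.factorial * κ.choose i : ℕ) : ℝ) := by exact_mod_cast e1
    have e3 : ((κ : ℝ) - j) ≤ ((κ + 1 - i : ℕ) : ℝ) := by
      rw [Nat.cast_sub (by omega)]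
      push_cast
      have : (i : ℝ) ≤ j := by exact_mod_cast hij
      linarith
    have e4 : (0 : ℝ) ≤ (κ : ℝ) - j := by
      have : (j : ℝ) ≤ κ := by exact_mod_cast hjκ
      linarith
    calc ((κ : ℝ) - j) ^ i ≤ ((κ + 1 - i : ℕ) : ℝ) ^ i := pow_le_pow_left₀ e4 e3 i
      _ ≤ (i.factorial : ℝ) * (κ.choose i : ℝ) := by
        push_cast at e2 ⊢
        exact e2
  have hc2 : (1 - 2 * j * δ1) * lam ^ i ≤ ((κ : ℝ) - j) ^ i * x ^ i := by
    rw [← mul_pow]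
    have f1 : (1 - 2 * δ1) * lam ≤ ((κ : ℝ) - j) * x := by
      have : (j : ℝ) * x ≤ j * x1 := mul_le_mul_of_nonneg_left hx (Nat.cast_nonneg j)
      nlinarith
    have f2 : 0 ≤ (1 - 2 * δ1) * lam := mul_nonneg (by linarith) hlam.le
    have f3 : ((1 - 2 * δ1) * lam) ^ i ≤ (((κ : ℝ) - j) * x) ^ i := pow_le_pow_left₀ f2 f1 i
    rw [mul_pow] at f3
    have f4 : 1 - 2 * j * δ1 ≤ (1 - 2 * δ1) ^ i := by
      have g1 := one_add_mul_le_pow (a := -(2 * δ1)) (by linarith) i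
      have g2 : (i : ℝ) * (2 * δ1) ≤ j * (2 * δ1) :=
        mul_le_mul_of_nonneg_right (by exact_mod_cast hij) (by linarith)
      have g3 : (1 + -(2 * δ1)) ^ i = (1 - 2 * δ1) ^ i := by ring
      rw [g3] at g1
      linarith
    exact (mul_le_mul_of_nonneg_right f4 (pow_nonneg hlam.le i)).trans f3
  -- the power of `1 - x`
  have hx0 : 0 ≤ 1 - x := by linarith
  have hd1 : Real.exp (-lam) * (1 - hi * (δ1 + 4 * x1)) ≤ (1 - x) ^ (κ - i) := by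
    have k1 : (1 - x) ^ κ ≤ (1 - x) ^ (κ - i) := pow_le_pow_of_le_one hx0 (by linarith) (Nat.sub_le _ _)
    have k2 : Real.exp (-(x * (1 + 2 * x))) ^ κ ≤ (1 - x) ^ κ :=
      pow_le_pow_left₀ (Real.exp_pos _).le (PBC_exp h0.le (hx.trans hx1)) κ
    rw [← Real.exp_nat_mul] at k2
    have k3 : -lam + -(hi * (δ1 + 4 * x1)) ≤ (κ : ℝ) * -(x * (1 + 2 * x)) := by
      have l1 : (κ : ℝ) * x ≤ (1 + δ1) * lam := by linarith
      have l2 : (κ : ℝ) * x * (1 + 2 * x) ≤ (1 + δ1) * lam * (1 + 2 * x1) := by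
        refine mul_le_mul l1 (by linarith) (by linarith) (mul_nonneg (by linarith) hlam.le)
      have l3 : (1 + δ1) * lam * (1 + 2 * x1) ≤ lam + hi * (δ1 + 4 * x1) := by
        have m1 : 0 ≤ x1 := by linarith
        have m2 : lam * (δ1 + 4 * x1) ≤ hi * (δ1 + 4 * x1) :=
          mul_le_mul_of_nonneg_right hhi (by linarith)
        have m3 : (1 + δ1) * (1 + 2 * x1) ≤ 1 + (δ1 + 4 * x1) := by nlinarith
        have m4 := mul_le_mul_of_nonneg_left m3 hlam.le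
        nlinarith
      linarith
    have k4 : Real.exp (-lam + -(hi * (δ1 + 4 * x1))) ≤ Real.exp ((κ : ℝ) * -(x * (1 + 2 * x))) := Real.exp_le_exp.2 k3
    rw [Real.exp_add] at k4
    have k5 := Real.add_one_le_exp (-(hi * (δ1 + 4 * x1)))
    have k6 : Real.exp (-lam) * (1 - hi * (δ1 + 4 * x1)) ≤ Real.exp (-lam) * Real.exp (-(hi * (δ1 + 4 * x1))) :=
      mul_le_mul_of_nonneg_left (by linarith) (Real.exp_pos _).le
    exact k6.trans (k4.trans (k2.trans k1))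
  have hxi : (0 : ℝ) ≤ x ^ i := pow_nonneg h0.le i
  have h3 : (1 - 2 * j * δ1) * lam ^ i ≤ (i.factorial : ℝ) * (κ.choose i : ℝ) * x ^ i :=
    hc2.trans (mul_le_mul_of_nonneg_right hc1 hxi)
  have h4 : (1 - 2 * j * δ1) * lam ^ i * (Real.exp (-lam) * (1 - hi * (δ1 + 4 * x1))) ≤
      (i.factorial : ℝ) * (κ.choose i : ℝ) * x ^ i * (1 - x) ^ (κ - i) :=
    mul_le_mul h3 hd1 (mul_nonneg (Real.exp_pos _).le (by linarith))
      (mul_nonneg (mul_nonneg hfac.le (Nat.cast_nonneg _)) hxi)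
  have h5 : (1 - 2 * j * δ1) * (1 - hi * (δ1 + 4 * x1)) * (Real.exp (-lam) * lam ^ i / (i.factorial : ℝ)) =
      (1 - 2 * j * δ1) * lam ^ i * (Real.exp (-lam) * (1 - hi * (δ1 + 4 * x1))) / (i.factorial : ℝ) := by
    field_simp
  rw [h5, div_le_iff₀ hfac]
  calc _ ≤ _ := h4
    _ = _ := by ring

theorem PBC : PBC_stmt := by
  intro j δ lo hi hδ hlo hlohi
  have hhi : 0 < hi := hlo.trans hlohi
  have hj0 : (0 : ℝ) ≤ j := Nat.cast_nonneg j
  obtain ⟨d, hd⟩ : ∃ d : ℝ, d = min δ 1 := ⟨_, rfl⟩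
  have hd0 : 0 < d := by rw [hd]; exact lt_min hδ one_pos
  have hdδ : d ≤ δ := by rw [hd]; exact min_le_left _ _
  have hd1 : d ≤ 1 := by rw [hd]; exact min_le_right _ _
  obtain ⟨δ1, hδ1⟩ : ∃ δ1 : ℝ, δ1 = d / (2 * (2 * j + hi + 1)) := ⟨_, rfl⟩
  have hden : 0 < 2 * (2 * (j : ℝ) + hi + 1) := by positivity
  have hδ10 : 0 < δ1 := by rw [hδ1]; positivity
  have hδ1e : δ1 * (2 * (2 * (j : ℝ) + hi + 1)) = d := by
    rw [hδ1]
    field_simp
  have hδ12 : δ1 ≤ 1 / 2 := by nlinarith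
  obtain ⟨x1, hx1⟩ : ∃ x1 : ℝ, x1 = min (δ1 * lo / (j + 1)) (d / (8 * (hi + 1))) := ⟨_, rfl⟩
  have hx10 : 0 < x1 := by
    rw [hx1]
    refine lt_min ?_ ?_ <;> positivity
  have hx1a : x1 * (j + 1) ≤ δ1 * lo := by
    have h : x1 ≤ δ1 * lo / (j + 1) := by rw [hx1]; exact min_le_left _ _
    rwa [le_div_iff₀ (by positivity)] at h
  have hx1b : x1 * (8 * (hi + 1)) ≤ d := by
    have h : x1 ≤ d / (8 * (hi + 1)) := by rw [hx1]; exact min_le_right _ _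
    rwa [le_div_iff₀ (by positivity)] at h
  have hx12 : x1 ≤ 1 / 2 := by nlinarith
  refine ⟨δ1, x1, hδ10, by linarith, hx10, hx12, ?_⟩
  intro κ x lam hx0 hx hlolam hlamhi hab
  have hlam : 0 < lam := hlo.trans_le hlolam
  have hκx : (1 - δ1) * lam ≤ κ * x := by
    have := (abs_le.1 hab).1
    linarith
  have hjκ : j ≤ κ := by
    by_contra hcon
    have h1 : (κ : ℝ) ≤ j := by
      have : κ ≤ j := by omega
      exact_mod_cast this
    have h2 : (κ : ℝ) * x ≤ j * x1 := mul_le_mul h1 hx hx0.le hj0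
    have h3 : (1 / 2) * lo ≤ (1 - δ1) * lam := by nlinarith
    have h4 : (j : ℝ) * x1 < (1 / 2) * lo := by nlinarith
    linarith
  have hjx : j * x1 ≤ δ1 * lam := by nlinarith
  have hA : 2 * j * δ1 + hi * δ1 ≤ d / 2 := by nlinarith
  have hB : 4 * hi * x1 ≤ d / 2 := by nlinarith
  have hA0 : 0 ≤ 2 * j * δ1 := by positivity
  have hB0 : 0 ≤ hi * (δ1 + 4 * x1) := by positivity
  have hA1 : 2 * j * δ1 ≤ 1 := by nlinarith
  have hB1 : hi * (δ1 + 4 * x1) ≤ 1 := by nlinarith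
  have hfin : 1 - δ ≤ (1 - 2 * j * δ1) * (1 - hi * (δ1 + 4 * x1)) := by
    have h1 : 0 ≤ 2 * j * δ1 * (hi * (δ1 + 4 * x1)) := mul_nonneg hA0 hB0
    nlinarith
  unfold pois bin
  rw [Finset.mul_sum]
  refine Finset.sum_le_sum fun i hi' => ?_
  have hij : i ≤ j := (Finset.mem_Icc.1 hi').2
  have hterm := PBC_term j i κ δ1 x lam hi x1 hij hjκ hx0 hx hx12 hδ10 hδ12 hlam hlamhi hA1 hB1 hjx hab
  refine le_trans (mul_le_mul_of_nonneg_right hfin ?_) hterm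
  positivity

end Pool.Agent.VVO
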